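import Pool.Agent.H93.PF.TargetsB

/-!
# Power-free shifts, row BKF: the gaps of the marker sets (4.3)
-/

set_option autoImplicit false

open MeasureTheory Filter Topology Finset Pool.Agent.H93.PF

namespace Pool.Agent.H20.PF

/-- the next point, from the existence of later points -/
lemma exists_next {B : Set ℤ} (s : ℤ) (h : ∃ g : ℕ, 0 < g ∧ s + g ∈ B) : ∃ g : ℕ, Nx B s g := by
  classical
  refine ⟨Nat.find h, (Nat.find_spec h).1, (Nat.find_spec h).2, ?_⟩
  intro i hi1 hi2 hi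
  have h1 := Nat.find_min h (m := (i - s).toNat) (by omega)
  apply h1
  refine ⟨by omega, ?_⟩
  have : s + (((i - s).toNat : ℕ) : ℤ) = i := by omega
  rw [this]
  exact hi

section
variable {Y : Type} [MeasurableSpace Y] {T : Y ≃ᵐ Y} {D : ℕ → Set Y} {y : Y}

lemma D_below (h : Rc T D y) (k : ℕ) (i : ℤ) : ∃ s ∈ ob T (D k) y, s ≤ i := by
  obtain ⟨_, j, hj, hjm⟩ := h k i.natAbs
  exact ⟨-(j : ℤ), hjm, by omega⟩

lemma D_next (h : Rc T D y) (k : ℕ) (s : ℤ) : ∃ g : ℕ, Nx (ob T (D k) y) s g := by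
  apply exists_next
  obtain ⟨⟨j, hj, hjm⟩, _⟩ := h k (s.natAbs + 1)
  refine ⟨((j : ℤ) - s).toNat, by omega, ?_⟩
  have : s + ((((j : ℤ) - s).toNat : ℕ) : ℤ) = j := by omega
  rw [this]
  exact hjm

end

/-- the first point at or after `a` -/
lemma first_point {B : Set ℤ} {G : ℕ} (below : ∀ i : ℤ, ∃ s ∈ B, s ≤ i)
    (next : ∀ s ∈ B, ∃ g : ℕ, g ≤ G ∧ Nx B s g) (a : ℤ) :
    ∃ s ∈ B, a ≤ s ∧ s < a + G ∧ ∀ x : ℤ, a ≤ x → x < s → x ∉ B := by
  obtain ⟨s, hs, g, hg, h1, h2⟩ := exists_gap below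
    (fun s hs => by obtain ⟨g, _, hg⟩ := next s hs; exact ⟨g, hg⟩) (a - 1)
  obtain ⟨g', hg', hn⟩ := next s hs
  have hgg := hg.uniq hn
  subst hgg
  refine ⟨s + g, hg.2.1, by omega, by omega, ?_⟩
  intro x hx1 hx2
  exact hg.2.2 x (by omega) hx2

/-- the step from one level to the next level -/
lemma level_step {B B' O : Set ℤ} {N G : ℕ} (hN : 0 < N) (hG : G ≤ N)
    (below : ∀ i : ℤ, ∃ s ∈ B, s ≤ i) (next : ∀ s ∈ B, ∃ g : ℕ, g ≤ G ∧ Nx B s g)
    (belowO : ∀ i : ℤ, ∃ s ∈ O, s ≤ i) (nextO : ∀ s ∈ O, ∃ g : ℕ, Nx O s g)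
    (f : ℕ → ℕ) (fm : Monotone f) (fs : ∀ i, f (i + 1) = f i + N) (hOB : O ⊆ B')
    (hB : ∀ (A : ℤ) (r : ℕ), A ∈ O → Nx O A r → ∀ x : ℤ, A ≤ x → x < A + r →
      (x ∈ B' ↔ x ∈ B ∧ ∃ i : ℕ, f (i + 1) ≤ r ∧ A + (f i : ℤ) ≤ x ∧
        ∀ x' : ℤ, A + (f i : ℤ) ≤ x' → x' < x → x' ∉ B)) :
    ∀ s ∈ B', ∃ g : ℕ, N < g + G ∧ g ≤ 2 * N ∧ Nx B' s g := by
  intro s hs
  obtain ⟨A, hA, r, hr, hAs, hsr⟩ := exists_gap belowO nextO s
  obtain ⟨hsB, i, hi1, hi2, hi3⟩ := (hB A r hA hr s hAs hsr).1 hs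
  obtain ⟨t, htB, ht1, ht2, ht3⟩ := first_point below next (A + (f i : ℤ))
  -- `s` is the first point
  have hst : s ≤ t := by
    by_contra hc
    push Not at hc
    exact hi3 t ht1 hc htB
  have hsG : s < A + f i + G := by omega
  have e1 := fs i
  -- no other points of the index up to `i`
  have hno : ∀ x : ℤ, s < x → ∀ i' : ℕ, A + (f i' : ℤ) ≤ x →
      (∀ x' : ℤ, A + (f i' : ℤ) ≤ x' → x' < x → x' ∉ B) → i < i' := by
    intro x hx i' h1 h2
    by_contra hc
    push Not at hc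
    have h3 := fm hc
    exact h2 s (by omega) hx hsB
  by_cases hcase : f (i + 1 + 1) ≤ r
  · obtain ⟨u, huB, hu1, hu2, hu3⟩ := first_point below next (A + (f (i + 1) : ℤ))
    have e2 := fs (i + 1)
    have hur : u < A + r := by omega
    have huB' : u ∈ B' := (hB A r hA hr u (by omega) hur).2 ⟨huB, i + 1, hcase, hu1, hu3⟩
    have hsu : s < u := by omega
    refine ⟨(u - s).toNat, by omega, by omega, by omega, ?_, ?_⟩
    · have : s + (((u - s).toNat : ℕ) : ℤ) = u := by omega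
      rw [this]
      exact huB'
    · intro x hx1 hx2 hx
      have hxu : x < u := by omega
      obtain ⟨hxB, i', h1, h2, h3⟩ := (hB A r hA hr x (by omega) (by omega)).1 hx
      have hi' := hno x hx1 i' h2 h3
      have h4 : f (i + 1) ≤ f i' := fm hi'
      exact hu3 x (by omega) hxu hxB
  · push Not at hcase
    have e2 := fs (i + 1)
    have hAr : A + (r : ℤ) ∈ B' := hOB hr.2.1
    refine ⟨(A + r - s).toNat, by omega, by omega, by omega, ?_, ?_⟩
    · have : s + (((A + r - s).toNat : ℕ) : ℤ) = A + r := by omega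
      rw [this]
      exact hAr
    · intro x hx1 hx2 hx
      obtain ⟨hxB, i', h1, h2, h3⟩ := (hB A r hA hr x (by omega) (by omega)).1 hx
      have hi' := hno x hx1 i' h2 h3
      have h4 : f (i + 1 + 1) ≤ f (i' + 1) := fm (by omega)
      omega

lemma gg_le {L : ℕ} (hL : 2 ≤ L) (k : ℕ) :
    gg L k ≤ 2 * (16 ^ k * L) + 1 ∧ gg L k ≤ 16 ^ (k + 1) * L := by
  cases k with
  | zero => simp only [gg]; omega
  | succ k =>
    have e1 : gg L (k + 1) = 2 * (16 ^ (k + 1) * L) := by simp only [gg]; ring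
    have e2 : 16 ^ (k + 1 + 1) * L = 16 * (16 ^ (k + 1) * L) := by ring
    rw [e1, e2]
    omega

theorem pf_BKF (_hLNB : T_LNB) (hTAU : T_TAU) (hB0F : T_B0F) (hBKT : T_BKT) : T_BKF := by
  intro Y _ T L D hM y hR
  have hL := hM.two
  -- the level `0`
  have h01 : ob T (D 0) y ⊆ ob T (Bk T L D 0) y := by
    intro x hx
    obtain ⟨r, hr⟩ := D_next hR 0 x
    obtain ⟨hr2, hb⟩ := hB0F Y T L D hM y hR x r hx hr
    obtain ⟨t1, t2, _⟩ := hTAU L r hL hr2
    have hr0 := hr.1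
    exact (hb x le_rfl (by omega)).2 ⟨0, t1, by rw [t2]; simp⟩
  have h04 : ∀ s ∈ ob T (Bk T L D 0) y, ∃ g : ℕ, (g = L ∨ g = L + 1) ∧
      Nx (ob T (Bk T L D 0) y) s g := by
    intro s hs
    obtain ⟨a, ha, r, hr, has, hsr⟩ := exists_gap (D_below hR 0)
      (fun s _ => D_next hR 0 s) s
    obtain ⟨hr2, hb⟩ := hB0F Y T L D hM y hR a r ha hr
    obtain ⟨t1, t2, t3, t4, _⟩ := hTAU L r hL hr2
    obtain ⟨i, hi, hsi⟩ := (hb s has hsr).1 hs
    have hmono : StrictMono (tau L r) := by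
      apply strictMono_nat_of_lt_succ
      intro j
      rcases t4 j with h | h <;> omega
    have hle : tau L r (i + 1) ≤ r := (hmono.monotone hi).trans t3.le
    have hmem : a + (tau L r (i + 1) : ℤ) ∈ ob T (Bk T L D 0) y := by
      rcases Nat.lt_or_ge (i + 1) (nt L r) with h | h
      · have hlt : tau L r (i + 1) < r := (hmono h).trans_le t3.le
        exact (hb _ (by omega) (by omega)).2 ⟨i + 1, h, rfl⟩
      · have e : i + 1 = nt L r := by omega
        rw [e, t3]
        exact h01 hr.2.1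
    have hnot : ∀ x : ℤ, s < x → x < a + (tau L r (i + 1) : ℤ) →
        x ∉ ob T (Bk T L D 0) y := by
      intro x hx1 hx2 hx
      obtain ⟨i', hi', hxi⟩ := (hb x (by omega) (by omega)).1 hx
      have h1 : tau L r i < tau L r i' := by omega
      have h2 : tau L r i' < tau L r (i + 1) := by omega
      have h3 := hmono.lt_iff_lt.1 h1
      have h4 := hmono.lt_iff_lt.1 h2
      omega
    rcases t4 i with h | h
    · refine ⟨L, Or.inl rfl, by omega, ?_, ?_⟩
      · have : s + (L : ℤ) = a + (tau L r (i + 1) : ℤ) := by omega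
        rw [this]; exact hmem
      · intro x hx1 hx2
        exact hnot x hx1 (by omega)
    · refine ⟨L + 1, Or.inr rfl, by omega, ?_, ?_⟩
      · have : s + ((L + 1 : ℕ) : ℤ) = a + (tau L r (i + 1) : ℤ) := by omega
        rw [this]; exact hmem
      · intro x hx1 hx2
        exact hnot x hx1 (by omega)
  have hall : ∀ k, (ob T (D k) y ⊆ ob T (Bk T L D k) y) ∧
      (∀ i : ℤ, ∃ s ∈ ob T (Bk T L D k) y, s ≤ i) ∧
      (∀ s ∈ ob T (Bk T L D k) y, ∃ g : ℕ, nn L k ≤ g ∧ g ≤ gg L k ∧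
        Nx (ob T (Bk T L D k) y) s g) := by
    intro k
    induction k with
    | zero =>
      refine ⟨h01, ?_, ?_⟩
      · intro i
        obtain ⟨s, hs, hsi⟩ := D_below hR 0 i
        exact ⟨s, h01 hs, hsi⟩
      · intro s hs
        obtain ⟨g, hg, hn⟩ := h04 s hs
        refine ⟨g, ?_, ?_, hn⟩
        · simp only [nn]; omega
        · simp only [gg]; omega
    | succ k ih =>
      obtain ⟨ih1, ih2, ih3⟩ := ih
      have hBK := hBKT Y T L D hM y hR k ih2
      have hsub : ob T (D (k + 1)) y ⊆ ob T (Bk T L D (k + 1)) y := by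
        intro x hx
        obtain ⟨r, hr⟩ := D_next hR (k + 1) x
        obtain ⟨hNr, hb⟩ := hBK x r hx hr
        have hr0 := hr.1
        refine (hb x le_rfl (by omega)).2 ⟨ih1 (hM.nest k hx), 0, by simpa using hNr,
          by simp, ?_⟩
        intro x' hx1 hx2
        simp only [Nat.zero_mul, Nat.cast_zero, add_zero] at hx1
        omega
      refine ⟨hsub, ?_, ?_⟩
      · intro i
        obtain ⟨s, hs, hsi⟩ := D_below hR (k + 1) i
        exact ⟨s, hsub hs, hsi⟩
      · obtain ⟨g1, g2⟩ := gg_le hL k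
        have hN : 0 < 16 ^ (k + 1) * L := by positivity
        have hst := level_step (B := ob T (Bk T L D k) y) (B' := ob T (Bk T L D (k + 1)) y)
          (O := ob T (D (k + 1)) y) hN g2 ih2
          (fun s hs => by obtain ⟨g, _, h1, h2⟩ := ih3 s hs; exact ⟨g, h1, h2⟩)
          (D_below hR (k + 1)) (fun s _ => D_next hR (k + 1) s)
          (fun i => i * (16 ^ (k + 1) * L)) (fun i j hij => Nat.mul_le_mul_right _ hij)
          (fun i => Nat.succ_mul _ _) hsub (fun A r hA hr => (hBK A r hA hr).2)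
        intro s hs
        obtain ⟨g, h1, h2, h3⟩ := hst s hs
        refine ⟨g, ?_, ?_, h3⟩
        · have e1 : nn L (k + 1) = 14 * (16 ^ k * L) := by simp only [nn]; ring
          have e2 : 16 ^ (k + 1) * L = 16 * (16 ^ k * L) := by ring
          rw [e1]
          rw [e2] at h1
          have := h3.1
          by_contra hc
          push Not at hc
          omega
        · have e1 : gg L (k + 1) = 2 * (16 ^ (k + 1) * L) := by simp only [gg]; ring
          rw [e1]
          exact h2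
  exact ⟨fun k => (hall k).1, fun k => (hall k).2.1, fun k => (hall k).2.2, h04⟩

end Pool.Agent.H20.PF
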